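import Pool.Agent.Lib.MP_1a91b9_ntZ.J7.Den
import Pool.Agent.Lib.MP_1a91b9_ntZ.Forms
import Pool.Agent.Lib.MP_1a91b9_ntV.J.Main7

/-!
# MP_1a91b9_nt (the binomial law), `ℚ(√-7)`: the rank part over all the multiquadratic extensions
-/

set_option autoImplicit false
set_option linter.unusedSectionVars false

namespace Pool.Agent.Lib.MP_1a91b9_ntZ

open NumberField

/-- The list of the classes as a family. -/
theorem mqok_fam {K : Type} [Field K] [NumberField K] {F : Type} [Field F] [Algebra K F]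
    {A : List (𝓞 K)} (h : Pool.Agent.Lib.MP_1a91b9_ntN.G.MQok K F A) :
    ∃ α : Fin (Module.finrank K F) → 𝓞 K, (∀ x, x ∈ A ↔ ∃ n, α n = x) ∧ (∀ n, α n ≠ 0) ∧
      (∀ n, ∃ y : F, y ^ 2 = algebraMap K F (α n)) ∧
      ∀ n n', n ≠ n' → ¬ ∃ y : K, y ^ 2 = (α n : K) * α n' := by
  obtain ⟨N, hN⟩ : ∃ N, N = Module.finrank K F := ⟨_, rfl⟩
  have hlen := h.len
  rw [← hN] at hlen ⊢
  subst hlen
  refine ⟨A.get, fun x => ?_, fun n => h.ne _ (List.get_mem _ _), fun n => h.sq _ (List.get_mem _ _),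
    fun n n' hnn => ?_⟩
  · rw [List.mem_iff_get]
  · have h1 := List.pairwise_iff_get.1 h.pw
    rcases lt_or_gt_of_ne hnn with h2 | h2
    · exact h1 n n' h2
    · rintro ⟨y, hy⟩
      exact h1 n' n h2 ⟨y, by rw [hy, mul_comm]⟩

/-- The classes of different blocks are different. -/
theorem cross_of {K : Type} [Field K] [NumberField K] {F : Type} [Field F] [Algebra K F]
    {δ δ' α α' d₀ ν ν' D D' : K} (hd₀ : d₀ ≠ 0) (hν : ν ≠ 0) (hν' : ν' ≠ 0) (hα : α ≠ 0)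
    (hα' : α' ≠ 0) (hD : D = d₀ * δ * ν ^ 2) (hD' : D' = d₀ * δ' * ν' ^ 2)
    (h1 : ∃ y : F, y ^ 2 = algebraMap K F α) (h2 : ∃ y : F, y ^ 2 = algebraMap K F α') {e : K}
    (h : ¬ ∃ x : F, x ^ 2 = algebraMap K F (e * (δ * δ'))) :
    ¬ ∃ y : K, y ^ 2 = e * (D * α * (D' * α')) := by
  rintro ⟨y, hy⟩
  obtain ⟨β, hβ⟩ := h1
  obtain ⟨β', hβ'⟩ := h2
  have hβ0 : β ^ 2 ≠ 0 := by
    rw [hβ]
    exact (map_ne_zero _).2 hα
  have hβ0' : β' ^ 2 ≠ 0 := by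
    rw [hβ']
    exact (map_ne_zero _).2 hα'
  obtain ⟨f, hf⟩ : ∃ f : K →+* F, f = algebraMap K F := ⟨_, rfl⟩
  have k1 : f d₀ ≠ 0 := (map_ne_zero _).2 hd₀
  have k2 : f ν ≠ 0 := (map_ne_zero _).2 hν
  have k3 : f ν' ≠ 0 := (map_ne_zero _).2 hν'
  apply h
  refine ⟨f y / (f d₀ * f ν * f ν' * β * β'), ?_⟩
  have hy' : (f y) ^ 2 = f e * (f d₀ * f δ * (f ν) ^ 2 * β ^ 2 * (f d₀ * f δ' * (f ν') ^ 2 *
      β' ^ 2)) := by
    rw [← map_pow, hy, hD, hD', hβ, hβ', ← hf]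
    simp only [map_mul, map_pow]
  rw [← hf, div_pow, hy', map_mul, map_mul, mul_pow, mul_pow, mul_pow, mul_pow]
  rw [div_eq_iff (mul_ne_zero (mul_ne_zero (mul_ne_zero (mul_ne_zero (pow_ne_zero 2 k1)
    (pow_ne_zero 2 k2)) (pow_ne_zero 2 k3)) hβ0) hβ0')]
  ring

end Pool.Agent.Lib.MP_1a91b9_ntZ

namespace Pool.Agent.Lib.MP_1a91b9_ntZ.J7

open NumberField IsDedekindDomain Finset WeierstrassCurve
open Pool.Agent.Lib.MP_1a91b9_ntV Pool.Agent.Lib.MP_1a91b9_nuT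
open Pool.Agent.Lib.MP_1a91b9_nuX.LG (LConcl)
open Pool.Agent.Lib.MP_1a91b9_ntN.G (MQT)
open Pool.Agent.Lib.MP_1a91b9_ntY (Tdq chainQ lconcl_iso finite_iso finite_iso' fm_q)
open Pool.Agent.Lib.MP_1a91b9_ntV.DS (cinfV)
open Pool.Agent.Lib.MP_1a91b9_ntV.J (c7 c7_sq Tdq_c7 WE_c7 WE_all ellK7 fm7 exists_sq_mul)
open Pool.Agent.Lib.MP_1a91b9_ntV.L (WE)
open Pool.Agent.Lib.MP_1a91b9_ntW.J (RkZ PropGE Cls2)
open Pool.Agent.Lib.MP_1a91b9_ntZ (Atl bn SepF BQG mqok_fam cross_of)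

noncomputable section

/-- The conclusion for one twist, from the twists over `K7`. -/
theorem rk7_of {F : Type} [Field F] [NumberField F] [Algebra K7 F] {A : List (𝓞 K7)}
    (hA : MQT K7 F A) {x₀ : K7} (hx₀ : x₀ ≠ 0) {D ν : 𝓞 K7} (hν : ν ≠ 0)
    (hD : (D : K7) = x₀ * (ν : K7) ^ 2) {d : 𝓞 K7} (hd : d ≠ 0)
    (h : ∀ b ∈ A, ∃ (d0 d1 d2 : ZMod 2) (S : Finset Pg7) (t : 𝓞 K7),
      t ≠ 0 ∧ D * b * d = (-1) ^ d0.val * ta ^ d1.val * tb ^ d2.val * DD S * t ^ 2 ∧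
      Good7 D7 S d0 d1 d2) :
    RkZ (c7 (algebraMap K7 F t7) (algebraMap K7 F (x₀ * d))) := by
  have hν' : (ν : K7) ≠ 0 := RingOfIntegers.coe_ne_zero_iff.2 hν
  have hD' : (D : K7) ≠ 0 := by
    rw [hD]
    exact mul_ne_zero hx₀ (pow_ne_zero 2 hν')
  have hD0 : D ≠ 0 := RingOfIntegers.coe_ne_zero_iff.1 hD'
  have h1 : LConcl (Tdq F (1 + (1 - (t7 : K7)) ^ 4) ((1 - (t7 : K7)) ^ 4) 0 (D * d)) ∧
      Finite (Tdq F (1 + (1 - (t7 : K7)) ^ 4) ((1 - (t7 : K7)) ^ 4) 0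
        (D * d)).toAffine.Point := by
    refine chainQ ellK7 ?_ hA (D * d) (mul_ne_zero hD0 hd) fun b hb => ?_
    · have h1 := fm7 (F := K7) (δ := 1) one_ne_zero
      rw [c7, one_mul, one_pow, one_mul] at h1
      exact h1
    · have h3 := WE_all (h b hb)
      have e : b * (D * d) = D * b * d := by ring
      have e2 := Tdq_c7 K7 (b * (D * d))
      have e3 : Tdq K7 (1 + (1 - (t7 : K7)) ^ 4) ((1 - (t7 : K7)) ^ 4) 0 (b * (D * d)) =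
          WE (D * b * d) := by
        rw [e2, ← e, WE_c7]
        rfl
      rw [← e3] at h3
      exact h3
  rw [Tdq_c7] at h1
  have hd0 : (d : K7) ≠ 0 := RingOfIntegers.coe_ne_zero_iff.2 hd
  have e : algebraMap K7 F ((D * d : 𝓞 K7) : K7) =
      algebraMap K7 F (x₀ * d) * (algebraMap K7 F (ν : K7)) ^ 2 := by
    have e1 : ((D * d : 𝓞 K7) : K7) = (D : K7) * d := by
      push_cast
      rfl
    rw [e1, hD, ← map_pow (algebraMap K7 F), ← map_mul (algebraMap K7 F)]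
    congr 1
    ring
  rw [e] at h1
  refine (c7_sq ?_ ?_).1 h1
  · rw [Ne, map_eq_zero]
    exact mul_ne_zero hx₀ hd0
  · rw [Ne, map_eq_zero]
    exact hν'

/-- **The binomial law over every multiquadratic extension of `ℚ(√-7)`.** -/
theorem main_b7 (F : Type) [Field F] [NumberField F] [Algebra K7 F]
    (hF : IntermediateField.adjoin K7 {x : F | ∃ c : K7, x ^ 2 = algebraMap K7 F c} = ⊤)
    {d₀ : K7} (hd₀ : d₀ ≠ 0) {m u : 𝓞 K7} (hmu : Cls2 K7 m u) {k : ℕ} {δ : Fin k → K7}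
    (hδ : SepF K7 F {1, -1} δ) (t : ℕ) :
    PropGE K7 m u (fun d => Atl t fun i =>
      RkZ (c7 (algebraMap K7 F t7) (algebraMap K7 F (d₀ * δ i * d))))
      (bn k t ((∏' i : ℕ, (1 - 1 / (2 : ℝ) ^ (i + 1))) ^ Module.finrank K7 F)) := by
  intro ε hε
  obtain ⟨n, hn⟩ := hmu.1
  obtain ⟨A, hA⟩ := MQT.exists_of hF
  obtain ⟨α, hmem, hα0, hαsq, hαpw⟩ := mqok_fam hA.ok
  have h0 : ∀ i, d₀ * δ i ≠ 0 := fun i => mul_ne_zero hd₀ (hδ.1 i)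
  have hex : ∀ i, ∃ D ν : 𝓞 K7, ν ≠ 0 ∧ (D : K7) = d₀ * δ i * (ν : K7) ^ 2 :=
    fun i => exists_sq_mul (d₀ := d₀ * δ i)
  choose D ν hν hD using hex
  have hν' : ∀ i, (ν i : K7) ≠ 0 := fun i => RingOfIntegers.coe_ne_zero_iff.2 (hν i)
  have hD' : ∀ i, (D i : K7) ≠ 0 := by
    intro i
    rw [hD i]
    exact mul_ne_zero (h0 i) (pow_ne_zero 2 (hν' i))
  have hα' : ∀ j, (α j : K7) ≠ 0 := fun j => RingOfIntegers.coe_ne_zero_iff.2 (hα0 j)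
  have hco : ∀ i j, ((D i * α j : 𝓞 K7) : K7) = (D i : K7) * α j := by
    intro i j
    push_cast
    rfl
  rw [cinfV_form]
  refine den7_bin (Module.finrank_pos (R := K7) (M := F)) (a := fun i j => D i * α j) ?_ ?_ ?_ hn
    hmu.2 _ (fun i d hd h => ?_) t ε hε
  · intro i j
    exact mul_ne_zero (RingOfIntegers.coe_ne_zero_iff.1 (hD' i)) (hα0 j)
  · rintro i j j' hjj ⟨y, hy⟩
    refine hαpw j j' hjj ⟨y / (D i : K7), ?_⟩
    rw [div_pow, hy, hco, hco, div_eq_iff (pow_ne_zero 2 (hD' i))]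
    ring
  · rintro i i' hii j j' ⟨y, hy⟩
    have key : ∀ e ∈ ({1, -1} : Set K7), ¬ ∃ y : K7, y ^ 2 = e * ((D i : K7) * α j *
        ((D i' : K7) * α j')) := fun e he =>
      cross_of hd₀ (hν' i) (hν' i') (hα' j) (hα' j') (hD i) (hD i') (hαsq j) (hαsq j')
        (hδ.2 i i' hii e he)
    have e1 := congrArg₂ (· * ·) (hco i j) (hco i' j')
    rcases hy with hy | hy
    · refine key 1 (Or.inl rfl) ⟨y, ?_⟩
      rw [one_mul]
      exact hy.trans e1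
    · refine key (-1) (Or.inr rfl) ⟨y, ?_⟩
      rw [neg_one_mul]
      exact hy.trans (congrArg Neg.neg e1)
  · refine rk7_of hA (h0 i) (hν i) (hD i) hd.ne_zero fun b hb => ?_
    obtain ⟨j, rfl⟩ := (hmem b).1 hb
    exact h j

/-- **The binomial law for the curves `y² = x (x + d₀) (x + d₀ (1 - t7)⁴)`.** -/
theorem bqg7 {d₀ : K7} (hd₀ : d₀ ≠ 0) : BQG K7 2 (fun _ => Cls2 K7) {1, -1}
    (d₀ * (1 + (1 - (t7 : K7)) ^ 4)) (d₀ ^ 2 * (1 - (t7 : K7)) ^ 4)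
    (∏' i : ℕ, (1 - 1 / (2 : ℝ) ^ (i + 1))) := by
  intro F _ _ _ hF m u hmu k δ hδ t
  have h1 := main_b7 F hF hd₀ hmu hδ t
  have e : ∀ (i : Fin k) (d : 𝓞 K7), c7 (algebraMap K7 F t7) (algebraMap K7 F (d₀ * δ i * d)) =
      ⟨0, algebraMap K7 F (δ i * d * (d₀ * (1 + (1 - (t7 : K7)) ^ 4))), 0,
        algebraMap K7 F ((δ i * d) ^ 2 * (d₀ ^ 2 * (1 - (t7 : K7)) ^ 4)), 0⟩ := by
    intro i d
    have e1 : δ i * d * (d₀ * (1 + (1 - (t7 : K7)) ^ 4)) =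
        d₀ * δ i * d * (1 + (1 - (t7 : K7)) ^ 4) := by ring
    have e2 : (δ i * d) ^ 2 * (d₀ ^ 2 * (1 - (t7 : K7)) ^ 4) =
        (d₀ * δ i * d) ^ 2 * (1 - (t7 : K7)) ^ 4 := by ring
    rw [e1, e2, map_mul _ (d₀ * δ i * d), map_mul _ ((d₀ * δ i * d) ^ 2),
      map_pow _ (d₀ * δ i * d), map_add, map_one, map_pow, map_sub, map_one]
    rfl
  simp only [e] at h1
  exact h1

end

end Pool.Agent.Lib.MP_1a91b9_ntZ.J7
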