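import Pool.Agent.Lib.MP_1a91b9_ntV.DJ.Joint7
import Pool.Agent.Lib.MP_1a91b9_ntZ.Bin

/-!
# MP_1a91b9_nt (the binomial law), `ℚ(√-7)`: the class level

`wvJ7`: the joint mean values for the blocks of labels. `bin7J`: the lower density of the sets of primes
for which at least `t` of the blocks of labels are good.
-/

set_option autoImplicit false
set_option linter.unusedSectionVars false

namespace Pool.Agent.Lib.MP_1a91b9_ntZ.J7

open Finset Pool.Agent.Lib.MP_1a91b9_ntH Pool.Agent.Lib.MP_1a91b9_ntQ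
  Pool.Agent.Lib.MP_1a91b9_ntQ.Da Pool.Agent.Lib.MP_1a91b9_ntV Pool.Agent.Lib.MP_1a91b9_ntM
  Pool.Agent.Lib.MP_1a91b9_ntV.DS Pool.Agent.Lib.MP_1a91b9_ntV.DJ

open Pool.Agent.Lib.MP_1a91b9_ntV.Pn (P7 tcn_P7 trn_P7 good_P7_0 good_P7_1 pencil_P7)
open Pool.Agent.Lib.MP_1a91b9_ntZ (Mn Atl bn)

noncomputable section

theorem mn_of_wv {β : Type} {B : ℕ → Finset β} {f : β → ℝ} {v : ℝ} (h : WV B f v) : Mn B f v := by
  intro δ hδ ε hε
  obtain ⟨X₀, h0⟩ := h (min δ ε) (lt_min hδ hε)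
  refine ⟨X₀, fun X hX => (h0 X hX).trans ?_⟩
  rw [mul_add]
  exact add_le_add (mul_le_mul_of_nonneg_right (min_le_left _ _) (Nat.cast_nonneg _))
    (mul_le_mul_of_nonneg_right (min_le_right _ _) (Nat.cast_nonneg _))

variable {ι : Type} [DecidableEq ι] {k N : ℕ} [PS ι] {G : Type} [AddCommGroup G] [Fintype G]

/-- the mean value of a block of labels -/
def vb (d1 d2 : Fin N → ZMod 2) (T : Fin N → Finset ι) : ℝ :=
  ∏ b : Bks d1 d2 T, ((∑ i, co d1 d2 T b i) * cinfV)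

/-- the indicator of a good block of labels -/
def fb (D : Dat2 ι (Fin 3)) {B : Finset ι} (d0 d1 d2 : Fin N → ZMod 2) (T : Fin N → Finset ι)
    (S : Finset (Off B)) : ℝ := ∏ a, gi D (T a) (d0 a) (d1 a) (d2 a) S

/-- **The joint mean values.** -/
theorem wvJ7 {D : Dat2 ι (Fin 3)} (tw : Tw7 D) {B : Finset ι} (hD : OKt (D.off B) (w7B B))
    (C : Cl2 (D.off B) G) (h3 : C.H3) {d0 d1 d2 : Fin k → Fin N → ZMod 2}
    {T : Fin k → Fin N → Finset ι} (hT : ∀ b n, T b n ⊆ B)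
    (hinj : ∀ b, Function.Injective fun n => (d0 b n, d1 b n, d2 b n, T b n))
    (hdis : ∀ b b', b ≠ b' → ∀ n n', ¬ (d1 b n = d1 b' n' ∧ d2 b n = d2 b' n' ∧ T b n = T b' n'))
    (g : G) (J : Finset (Fin k)) :
    WV (SG C g) (fun S => ∏ b ∈ J, fb D (d0 b) (d1 b) (d2 b) (T b) S)
      (∏ b ∈ J, vb (d1 b) (d2 b) (T b)) := by
  classical
  obtain ⟨γ', hγ'⟩ : ∃ γ' : Fin 3 ⊕ B → ZMod 2, γ' = fun j => C.A j g := ⟨_, rfl⟩
  have hw : w7B B ≠ 0 := fun h => one_ne_zero (congrFun h (Sum.inl 0))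
  have hlab : ∀ b : Fin k, ∀ n n', lab (d1 b) (d2 b) (T b) n = lab (d1 b) (d2 b) (T b) n' →
      d1 b n = d1 b n' ∧ d2 b n = d2 b n' ∧ T b n = T b n' := by
    intro b n n' h
    unfold lab at h
    simp only [Prod.mk.injEq] at h
    exact ⟨h.1.1, h.1.2, h.2⟩
  have h1 := dens_lin (B := Σ b : J, Bks (d1 b) (d2 b) (T b)) (I := fun _ => Fin 3) hD hw C h3
    (fun b i => PB D γ' (T b.1 (rep (d1 b.1) (d2 b.1) (T b.1) b.2))
      (d0 b.1 (rep (d1 b.1) (d2 b.1) (T b.1) b.2)) (d1 b.1 (rep (d1 b.1) (d2 b.1) (T b.1) b.2))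
      (d2 b.1 (rep (d1 b.1) (d2 b.1) (T b.1) b.2)) i)
    (by
      rintro ⟨b, β⟩ ⟨b', β'⟩ hbb i i'
      refine sep7 γ' (hT _ _) (hT _ _) i i' ?_
      rintro ⟨h1, h2, h3⟩
      by_cases hb : b = b'
      · subst hb
        apply hbb
        have : β = β' := by
          apply Subtype.ext
          rw [← rep_spec (d1 b) (d2 b) (T b) β, ← rep_spec (d1 b) (d2 b) (T b) β']
          unfold lab
          rw [h1, h2, h3]
        rw [this]
      · exact hdis b b' (fun h => hb (Subtype.ext h)) _ _ ⟨h1, h2, h3⟩)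
    g (fun b i => by
      rw [← hγ']
      exact bal7 γ' tw (hT _ _) _ _ _ i)
    (fun b => co (d1 b.1) (d2 b.1) (T b.1) b.2)
    (fun b S => ∏ a ∈ mem (d1 b.1) (d2 b.1) (T b.1) b.2,
      gi D (T b.1 a) (d0 b.1 a) (d1 b.1 a) (d2 b.1 a) S)
    (by
      rintro X S hS hne ⟨b, β⟩
      have hcl : clN (D.off B) S = γ' := by
        rw [hγ']
        exact cls_SG C hS
      rw [← hγ', Fin.sum_univ_three]
      rcases block_cases (hinj b) β with h | ⟨a, ha, h0, h⟩
      · unfold co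
        rw [if_pos h, if_pos h, if_pos h, h, prod_singleton,
          gi_one γ' tw hne (hT _ _) hcl]
        show _ = 1 * _ + 0 * _ + 0 * _
        ring
      · have hn : ¬ mem (d1 b) (d2 b) (T b) β = {rep (d1 b) (d2 b) (T b) β} := by
          intro h'
          have h2 : a ∈ ({rep (d1 b) (d2 b) (T b) β} : Finset (Fin N)) := by
            rw [← h', h]
            exact mem_insert_of_mem (mem_singleton_self a)
          exact ha (mem_singleton.1 h2)
        have hab : lab (d1 b) (d2 b) (T b) a =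
            lab (d1 b) (d2 b) (T b) (rep (d1 b) (d2 b) (T b) β) := by
          rw [rep_spec, ← mem_mem, h]
          exact mem_insert_of_mem (mem_singleton_self a)
        obtain ⟨e1, e2, e3⟩ := hlab b a _ hab
        unfold co
        rw [if_neg hn, if_neg hn, if_neg hn, h, prod_pair ha.symm, e1, e2, e3, h0,
          gi_two γ' tw hne (hT _ _) hcl]
        show _ = 1 / 2 * _ + 1 / 2 * _ + -(1 / 2) * _
        ring)
  refine h1.congr (fun S => ?_) ?_
  · rw [Fintype.prod_sigma, ← prod_coe_sort J]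
    exact prod_congr rfl fun b _ => prod_blocks (d1 b) (d2 b) (T b) _
  · rw [Fintype.prod_sigma, ← prod_coe_sort J]
    rfl

theorem vb_ge {d0 d1 d2 : Fin N → ZMod 2} {T : Fin N → Finset ι}
    (hinj : Function.Injective fun i => (d0 i, d1 i, d2 i, T i)) : cinfV ^ N ≤ vb d1 d2 T := by
  have h1 : cinfV ^ N = ∏ b : Bks d1 d2 T, ∏ _a ∈ mem d1 d2 T b, cinfV := by
    rw [← prod_blocks d1 d2 T fun _ => cinfV, prod_const, card_univ, Fintype.card_fin]
  rw [h1]
  exact prod_le_prod (fun b _ => prod_nonneg fun _ _ => cinfV_nn) fun b _ => co_ge hinj b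

theorem vb_le {d0 d1 d2 : Fin N → ZMod 2} {T : Fin N → Finset ι}
    (hinj : Function.Injective fun i => (d0 i, d1 i, d2 i, T i)) : vb d1 d2 T ≤ 1 := by
  refine prod_le_one (fun b _ => ?_) fun b _ => ?_
  · exact (prod_nonneg fun _ _ => cinfV_nn).trans (co_ge hinj b)
  · rw [Fin.sum_univ_three]
    have h1 := cinfV_nn
    have h2 := cinfV_half
    unfold co
    split_ifs
    · show (1 + 0 + 0) * cinfV ≤ 1
      linarith
    · show (1 / 2 + 1 / 2 + -(1 / 2)) * cinfV ≤ 1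
      linarith

theorem fb_eq (D : Dat2 ι (Fin 3)) {B : Finset ι} (d0 d1 d2 : Fin N → ZMod 2)
    (T : Fin N → Finset ι) (S : Finset (Off B))
    [Decidable (∀ i, Good7 D (up S ∪ T i) (d0 i) (d1 i) (d2 i))] :
    fb D d0 d1 d2 T S = if (∀ i, Good7 D (up S ∪ T i) (d0 i) (d1 i) (d2 i)) then (1 : ℝ) else 0 := by
  classical
  unfold fb gi
  rw [prod_ite_zero]
  simp only [mem_univ, true_implies, prod_const_one]

/-- **At least `t` blocks are good**, in a class. -/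
theorem low7B {D : Dat2 ι (Fin 3)} (tw : Tw7 D) {B : Finset ι} (hD : OKt (D.off B) (w7B B))
    (C : Cl2 (D.off B) G) (h3 : C.H3) {d0 d1 d2 : Fin k → Fin N → ZMod 2}
    {T : Fin k → Fin N → Finset ι} (hT : ∀ b n, T b n ⊆ B)
    (hinj : ∀ b, Function.Injective fun n => (d0 b n, d1 b n, d2 b n, T b n))
    (hdis : ∀ b b', b ≠ b' → ∀ n n', ¬ (d1 b n = d1 b' n' ∧ d2 b n = d2 b' n' ∧ T b n = T b' n'))
    (g : G) (t : ℕ) {κ₀ : ℝ} (hκ : κ₀ < bn k t (cinfV ^ N)) (ε : ℝ) (hε : 0 < ε)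
    [i1 : DecidablePred fun S : Finset (Off B) => Atl t fun b => ∀ i,
      Good7 D (up S ∪ T b i) (d0 b i) (d1 b i) (d2 b i)] :
    ∃ X₀ : ℕ, ∀ X : ℕ, X₀ ≤ X →
      κ₀ * (SG C g X).card - ε * X ≤ (((SG C g X).filter fun S => Atl t fun b => ∀ i,
        Good7 D (up S ∪ T b i) (d0 b i) (d1 b i) (d2 b i)).card : ℝ) := by
  classical
  obtain ⟨X₀, h0⟩ := Mn.lower (I := Fin k) (B := SG C g)
    (F := fun b S => fb D (d0 b) (d1 b) (d2 b) (T b) S)
    (v := fun b => vb (d1 b) (d2 b) (T b))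
    (P := fun b S => ∀ i, Good7 D (up S ∪ T b i) (d0 b i) (d1 b i) (d2 b i))
    (fun b S => by
      rw [fb_eq]
      split_ifs
      · exact zero_le_one
      · exact le_rfl)
    (fun b S => by
      rw [fb_eq]
      split_ifs
      · exact le_rfl
      · exact zero_le_one)
    (fun b S h => by rw [fb_eq, if_neg h])
    (fun J _ => mn_of_wv (wvJ7 tw hD C h3 hT hinj hdis g J))
    (pow_nonneg cinfV_nn N) (fun b => vb_ge (hinj b)) (fun b => vb_le (hinj b)) t
    (by rwa [Fintype.card_fin]) ε hε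
  refine ⟨X₀, fun X hX => (h0 X hX).trans (le_of_eq ?_)⟩
  refine congrArg (fun n : ℕ => (n : ℝ)) (congrArg Finset.card ?_)
  ext S
  constructor
  · intro h
    exact (@mem_filter _ _ (_) _ _).2 ((@mem_filter _ _ (_) _ _).1 h)
  · intro h
    exact (@mem_filter _ _ (_) _ _).2 ((@mem_filter _ _ (_) _ _).1 h)

/-- The number of the sets with a property, outside `B`. -/
theorem card_off {D : Dat2 ι (Fin 3)} {B : Finset ι} (C : Cl2 (D.off B) G) (cl : ι → G)
    (hcl : ∀ q : Off B, C.cl q = cl q.1) (g : G) (P : Finset ι → Prop) (X : ℕ)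
    [i1 : DecidablePred fun S : Finset ι => Disjoint S B ∧ ∑ q ∈ S, cl q = g ∧ P S]
    [i2 : DecidablePred fun S : Finset (Off B) => P (up S)] :
    (((Sx ι X).filter fun S => Disjoint S B ∧ ∑ q ∈ S, cl q = g ∧ P S).card : ℝ) =
      ((SG C g X).filter fun S => P (up S)).card := by
  classical
  have hsum : ∀ S : Finset (Off B), ∑ q ∈ S, C.cl q = ∑ q ∈ up S, cl q := by
    intro S
    rw [sum_up]
    exact sum_congr rfl fun q _ => hcl q
  obtain ⟨f, hf1, hf0⟩ : ∃ f : Finset ι → ℝ, (∀ S, (∑ q ∈ S, cl q = g ∧ P S) → f S = 1) ∧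
      ∀ S, ¬ (∑ q ∈ S, cl q = g ∧ P S) → f S = 0 :=
    ⟨fun S => if ∑ q ∈ S, cl q = g ∧ P S then 1 else 0, fun S h => if_pos h, fun S h => if_neg h⟩
  have h2 := sum_Sx_off (ι := ι) B X f
  have h3 : (((SG C g X).filter fun S => P (up S)).card : ℝ) = ∑ S ∈ Sx (Off B) X, f (up S) := by
    have e : ∀ S : Finset (Off B), f (up S) = if ∑ q ∈ up S, cl q = g ∧ P (up S) then 1 else 0 := by
      intro S
      split_ifs with h
      · exact hf1 _ h
      · exact hf0 _ h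
    simp only [e]
    rw [← sum_filter, sum_const, nsmul_eq_mul, mul_one]
    refine congrArg (fun n : ℕ => (n : ℝ)) (congrArg Finset.card ?_)
    ext S
    constructor
    · intro h
      have h4 := (@mem_filter _ _ (_) _ _).1 h
      have h5 := mem_SG.1 h4.1
      exact (@mem_filter _ _ (_) _ _).2 ⟨h5.1, by rw [← hsum]; exact h5.2, h4.2⟩
    · intro h
      have h4 := (@mem_filter _ _ (_) _ _).1 h
      exact (@mem_filter _ _ (_) _ _).2 ⟨mem_SG.2 ⟨h4.1, by rw [hsum]; exact h4.2.1⟩, h4.2.2⟩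
  have e : ∀ S : Finset ι, f S = if ∑ q ∈ S, cl q = g ∧ P S then 1 else 0 := by
    intro S
    split_ifs with h
    · exact hf1 _ h
    · exact hf0 _ h
  rw [h3, h2]
  simp only [e]
  rw [← sum_filter, filter_filter, sum_const, nsmul_eq_mul, mul_one]
  refine congrArg (fun n : ℕ => (n : ℝ)) (congrArg Finset.card ?_)
  ext S
  constructor
  · intro h
    exact (@mem_filter _ _ (_) _ _).2 ((@mem_filter _ _ (_) _ _).1 h)
  · intro h
    exact (@mem_filter _ _ (_) _ _).2 ((@mem_filter _ _ (_) _ _).1 h)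

/-- **At least `t` blocks are good**, among the sets of primes outside `B`. -/
theorem bin7J {D : Dat2 ι (Fin 3)} (tw : Tw7 D) {B : Finset ι} (hD : OKt (D.off B) (w7B B))
    (C : Cl2 (D.off B) G) (h3 : C.H3) (cl : ι → G) (hcl : ∀ q : Off B, C.cl q = cl q.1)
    {d0 d1 d2 : Fin k → Fin N → ZMod 2}
    {T : Fin k → Fin N → Finset ι} (hT : ∀ b n, T b n ⊆ B)
    (hinj : ∀ b, Function.Injective fun n => (d0 b n, d1 b n, d2 b n, T b n))
    (hdis : ∀ b b', b ≠ b' → ∀ n n', ¬ (d1 b n = d1 b' n' ∧ d2 b n = d2 b' n' ∧ T b n = T b' n'))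
    (g : G) (t : ℕ) {κ₀ : ℝ} (hκ : κ₀ < bn k t (cinfV ^ N))
    [i1 : DecidablePred fun S : Finset ι => Disjoint S B ∧ ∑ q ∈ S, cl q = g]
    [i2 : DecidablePred fun S : Finset ι => Disjoint S B ∧ ∑ q ∈ S, cl q = g ∧
      Atl t fun b => ∀ i, Good7 D (S ∪ T b i) (d0 b i) (d1 b i) (d2 b i)] (ε : ℝ) (hε : 0 < ε) :
    ∃ X₀ : ℕ, ∀ X : ℕ, X₀ ≤ X →
      κ₀ * (((Sx ι X).filter fun S => Disjoint S B ∧ ∑ q ∈ S, cl q = g).card : ℝ) - ε * X ≤
        (((Sx ι X).filter fun S => Disjoint S B ∧ ∑ q ∈ S, cl q = g ∧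
          Atl t fun b => ∀ i, Good7 D (S ∪ T b i) (d0 b i) (d1 b i) (d2 b i)).card : ℝ) := by
  classical
  obtain ⟨X₀, h0⟩ := low7B tw hD C h3 hT hinj hdis g t hκ ε hε
  refine ⟨X₀, fun X hX => ?_⟩
  have h1 := h0 X hX
  have e1 : (((Sx ι X).filter fun S => Disjoint S B ∧ ∑ q ∈ S, cl q = g).card : ℝ) =
      (SG C g X).card := by
    have h2 := card_off C cl hcl g (fun _ => True) X
    simp only [and_true, filter_true] at h2
    refine Eq.trans ?_ h2
    refine congrArg (fun n : ℕ => (n : ℝ)) (congrArg Finset.card ?_)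
    ext S
    constructor
    · intro h
      exact (@mem_filter _ _ (_) _ _).2 ((@mem_filter _ _ (_) _ _).1 h)
    · intro h
      exact (@mem_filter _ _ (_) _ _).2 ((@mem_filter _ _ (_) _ _).1 h)
  rw [e1, card_off C cl hcl g (fun S => Atl t fun b => ∀ i,
    Good7 D (S ∪ T b i) (d0 b i) (d1 b i) (d2 b i)) X]
  exact h1

end

end Pool.Agent.Lib.MP_1a91b9_ntZ.J7
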