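import Pool.Agent.Lib.MP_1a91b9_ntZ.J7.Cls
import Pool.Agent.Lib.MP_1a91b9_ntZ.DenR
import Pool.Agent.Lib.MP_1a91b9_ntV.DJ.Dsj7

/-!
# MP_1a91b9_nt (the binomial law), `ℚ(√-7)`: the squarefree elements for which at least `t` of the blocks
# of twists are good
-/

set_option autoImplicit false
set_option linter.unusedSectionVars false

namespace Pool.Agent.Lib.MP_1a91b9_ntZ.J7

open NumberField Finset Pool.Agent.Lib.MP_1a91b9_nuT Pool.Agent.Lib.MP_1a91b9_ntQ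
open Pool.Agent.Lib.MP_1a91b9_ntV
open Pool.Agent.Lib.MP_1a91b9_ntV.DS (cinfV)
open Pool.Agent.Lib.MP_1a91b9_ntV.DJ
open Pool.Agent.Lib.MP_1a91b9_ntH (PS nm Sx mem_Sx)
open Pool.Agent.Lib.MP_1a91b9_ntR (nG Qi Pri sys Rcp GR cq GRB cqB c2 mu finite_GR)
open Pool.Agent.Lib.MP_1a91b9_ntZ (Atl bn DSBinR den_bin)

noncomputable section

variable [CD] [hv : V7]

/-- **The lower density of the sets of primes for which at least `t` of the blocks are good.** -/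
theorem dsbin7 (n : ℕ) : DSBinR (mod7 n) Go7 cinfV := by
  intro k N _ i T B hT hinj hdis g t κ₀ hκ
  have : Finite (GR (mod7 n)) := finite_GR (mod7 n) (two_pow_ne7 n)
  let _ : Fintype (GR (mod7 n)) := Fintype.ofFinite _
  let _ : Fintype (GRB (mod7 n) B) := Fintype.ofFinite _
  have key : ∀ x y : Fin 2 → ZMod 2, x 0 = y 0 → x 1 = y 1 → x = y := by
    intro x y h0 h1
    funext j
    fin_cases j
    · exact h0
    · exact h1
  have h : DSB7 n B g κ₀ fun S => Atl t fun b => ∀ a,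
      Good7 D7 (S ∪ T b a) (i b a).1 ((i b a).2 0) ((i b a).2 1) := by
    unfold DSB7
    refine bin7J tw7D (okt7B n B) (C7B n B) (h3_7B n B) (cB7 n B) (fun _ => rfl)
      (d0 := fun b a => (i b a).1) (d1 := fun b a => (i b a).2 0) (d2 := fun b a => (i b a).2 1)
      hT (fun b => ?_) (fun b b' hbb a a' => ?_) g t hκ (i1 := _) (i2 := _)
    · intro a a' hab
      apply hinj b
      simp only [Prod.mk.injEq] at hab
      exact Prod.ext (Prod.ext hab.1 (key _ _ hab.2.1 hab.2.2.1)) hab.2.2.2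
    · rintro ⟨h1, h2, h3⟩
      apply hdis b b' hbb a a'
      exact Prod.ext (key _ _ h1 h2) h3
  exact h.dsbr

/-- **The density of the squarefree `d` for which at least `t` of the blocks of twists are good.** -/
theorem den7_bin {k N : ℕ} (hN : 0 < N) {a : Fin k → Fin N → 𝓞 K} (hne : ∀ b j, a b j ≠ 0)
    (hin : ∀ b j j', j ≠ j' → ¬ ∃ y : K, y ^ 2 = (a b j : K) * a b j')
    (hcr : ∀ b b', b ≠ b' → ∀ j j', ¬ ∃ y : K, y ^ 2 = (a b j : K) * a b' j' ∨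
      y ^ 2 = -((a b j : K) * a b' j'))
    {n : ℕ} {M u : 𝓞 K} (hM : M ∣ 2 ^ n)
    (hu : ∀ p : 𝓞 K, Prime p → ¬ (p ^ 2 ∣ M ∧ p ^ 2 ∣ u))
    (Pr : Fin k → 𝓞 K → Prop)
    (hPr : ∀ b (d : 𝓞 K), Squarefree d → (∀ j, ∃ (d0 d1 d2 : ZMod 2) (S : Finset Pg7) (t : 𝓞 K),
      t ≠ 0 ∧ a b j * d = (-1) ^ d0.val * ta ^ d1.val * tb ^ d2.val * DD S * t ^ 2 ∧
      Good7 D7 S d0 d1 d2) → Pr b d) (t : ℕ)
    (ε : ℝ) (hε : 0 < ε) :
    ∀ᶠ X : ℝ in Filter.atTop,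
      bn k t (cinfV ^ N) - ε ≤
      (Nat.card {x : 𝓞 K // Squarefree x ∧ M ∣ x - u ∧ |Algebra.norm ℤ x| ≤ X ∧
        Atl t fun b => Pr b x} : ℝ) /
        (Nat.card {x : 𝓞 K // Squarefree x ∧ M ∣ x - u ∧ |Algebra.norm ℤ x| ≤ X} : ℝ) := by
  have hm' : M ∣ (2 : 𝓞 K) ^ (n + 3) := hM.trans (pow_dvd_pow _ (by omega))
  refine den_bin bad7 (mod7 n) (two_pow_ne7 n) (dsbin7 n) hN hne ?_ ?_ hm'
    (fun a => hu _ (bad7.prime a)) Pr ?_ t (by linarith)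
  · rintro b j j' hjj ⟨y, hy⟩
    exact hin b j j' hjj ⟨(y : K), by exact_mod_cast congrArg (fun z : 𝓞 K => (z : K)) hy⟩
  · rintro b b' hbb j j' ⟨y, hy⟩
    refine hcr b b' hbb j j' ⟨(y : K), ?_⟩
    rcases hy with hy | hy
    · exact Or.inl (by exact_mod_cast congrArg (fun z : 𝓞 K => (z : K)) hy)
    · exact Or.inr (by exact_mod_cast congrArg (fun z : 𝓞 K => (z : K)) hy)
  · intro b d hd h
    refine hPr b d hd fun j => ?_
    obtain ⟨i, S, s, h1, h2, h3⟩ := h j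
    refine ⟨i.1, i.2 0, i.2 1, S, s, h1, ?_, h3⟩
    rw [h2, mu7']
    rfl

end

end Pool.Agent.Lib.MP_1a91b9_ntZ.J7
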